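import Mathlib

/-! Definitions for `MP_2ec8a3_nt.TriplesThroughTypicalIntegers` (helper17). -/

namespace Pool.Agent.H17.DV

/-- the product of the primes dividing `n` -/
def rad (n : ℕ) : ℕ := ∏ p ∈ n.primeFactors, p

/-- the positive integers `n` for which there is a triple of positive coprime integers `a + b = c`
such that every prime divisor of `n` divides `abc` (for instance `n ∣ abc`),
`rad (abc) ≤ n ^ (3 - δ)`, and `c < rad (abc) ^ M` is false -/
def Bad (δ M : ℝ) : Set ℕ :=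
  {n | 0 < n ∧ ∃ a b c : ℕ, 0 < a ∧ 0 < b ∧ Nat.Coprime a b ∧ a + b = c ∧
    (∀ p : ℕ, p.Prime → p ∣ n → p ∣ a * b * c) ∧
    (rad (a * b * c) : ℝ) ≤ (n : ℝ) ^ (3 - δ) ∧ (rad (a * b * c) : ℝ) ^ M ≤ (c : ℝ)}

end Pool.Agent.H17.DV
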