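import Pool.Agent.H17.DV.Defs
import Pool.Graph.R_seed8.H785R2.ABC.A12
import Pool.Graph.R_pool_sql_team_seeded_707910d6.Results.MP_2ec8a3_nt.SquareRootAllHeights

/-! Proof for `MP_2ec8a3_nt.TriplesThroughTypicalIntegers` (helper17). -/

set_option autoImplicit false

namespace Pool.Agent.H17.DV

open Finset
open Pool.Agent.Results.MP_2ec8a3_nt

/-- the integers up to `N` all of whose primes divide a given squarefree number -/
lemma smooth_count (ε : ℝ) (hε : 0 < ε) : ∃ D : ℝ, 0 < D ∧ ∀ N R : ℕ, 1 ≤ N → 1 ≤ R →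
    (((Icc 1 N).filter fun n => n.primeFactors ⊆ R.primeFactors).card : ℝ) ≤
      D * (N : ℝ) ^ ε * (R : ℝ) ^ ε := by
  classical
  obtain ⟨D₁, hD₁, h₁⟩ := Pool.Agent.H785R2.ABC.stmtA1 2 (by norm_num) ε hε
  obtain ⟨D₂, hD₂, h₂⟩ := Pool.Agent.H785R2.ABC.stmtA2 ε hε
  refine ⟨D₂ * D₁, by positivity, fun N R hN hR => ?_⟩
  have hcov : ((Icc 1 N).filter fun n => n.primeFactors ⊆ R.primeFactors) ⊆
      R.primeFactors.powerset.biUnion fun s =>
        (Icc 1 N).filter fun n => Pool.Agent.H785R2.ABC.rad n = ∏ p ∈ s, p := by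
    intro n hn
    obtain ⟨a1, a2⟩ := mem_filter.1 hn
    rw [mem_biUnion]
    exact ⟨n.primeFactors, mem_powerset.2 a2, mem_filter.2 ⟨a1, rfl⟩⟩
  have h3 := (card_le_card hcov).trans card_biUnion_le
  calc (((Icc 1 N).filter fun n => n.primeFactors ⊆ R.primeFactors).card : ℝ)
      ≤ ∑ s ∈ R.primeFactors.powerset,
        (((Icc 1 N).filter fun n => Pool.Agent.H785R2.ABC.rad n = ∏ p ∈ s, p).card : ℝ) := by
        exact_mod_cast h3
    _ ≤ ∑ s ∈ R.primeFactors.powerset, D₂ * (N : ℝ) ^ ε := sum_le_sum fun s _ => h₂ N hN _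
    _ = 2 ^ R.primeFactors.card * (D₂ * (N : ℝ) ^ ε) := by
        rw [sum_const, card_powerset, nsmul_eq_mul]
        push_cast
        ring
    _ ≤ (D₁ * (R : ℝ) ^ ε) * (D₂ * (N : ℝ) ^ ε) :=
        mul_le_mul_of_nonneg_right (h₁ R hR) (by positivity)
    _ = _ := by ring

theorem main (δ : ℝ) (hδ : 0 < δ) : ∃ (M : ℕ) (ν K : ℝ), 0 < ν ∧ 0 < K ∧ ∀ N : ℕ, 1 ≤ N →
    ({n | n ∈ Bad δ M ∧ n ≤ N}.ncard : ℝ) ≤ K * (N : ℝ) ^ (1 - ν) := by
  classical
  -- it is enough to treat `δ ≤ 3`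
  wlog hδ3 : δ ≤ 3 generalizing δ
  · push Not at hδ3
    obtain ⟨M, ν, K, h1, h2, h3⟩ := this 3 (by norm_num) le_rfl
    refine ⟨M, ν, K, h1, h2, fun N hN => le_trans ?_ (h3 N hN)⟩
    have hfin : ({n | n ∈ Bad 3 M ∧ n ≤ N} : Set ℕ).Finite :=
      (Set.finite_Iic N).subset fun n hn => hn.2
    have := Set.ncard_le_ncard (s := {n | n ∈ Bad δ M ∧ n ≤ N}) (t := {n | n ∈ Bad 3 M ∧ n ≤ N}) (by
      rintro n ⟨⟨h4, a, b, c, h5, h6, h7, h8, h9, h10, h11⟩, h12⟩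
      refine ⟨⟨h4, a, b, c, h5, h6, h7, h8, h9, h10.trans ?_, h11⟩, h12⟩
      exact Real.rpow_le_rpow_of_exponent_le (by exact_mod_cast h4) (by linarith)) hfin
    exact_mod_cast this
  obtain ⟨ε, hε⟩ : ∃ ε, ε = δ / 42 := ⟨_, rfl⟩
  have hε0 : 0 < ε := by rw [hε]; positivity
  obtain ⟨M, C, hC, hV⟩ := SquareRootAllHeights.result ε hε0
  obtain ⟨D, hD, hcount⟩ := smooth_count ε hε0
  refine ⟨M, δ / 6, C * D, by positivity, by positivity, fun N hN => ?_⟩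
  have hN1 : (1 : ℝ) ≤ N := by exact_mod_cast hN
  have hN0 : (0 : ℝ) < N := by linarith
  obtain ⟨X, hX⟩ : ∃ X, X = ⌊(N : ℝ) ^ (3 - δ)⌋₊ := ⟨_, rfl⟩
  have hX1 : 1 ≤ X := by
    rw [hX]
    exact Nat.le_floor (by push_cast; exact Real.one_le_rpow hN1 (by linarith))
  have hXN : (X : ℝ) ≤ (N : ℝ) ^ (3 - δ) := by
    rw [hX]
    exact Nat.floor_le (by positivity)
  obtain ⟨hfin, hcard, -⟩ := hV X hX1
  have hcov : ({n | n ∈ Bad δ M ∧ n ≤ N} : Set ℕ) ⊆ (hfin.toFinset.biUnion fun q =>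
      (Icc 1 N).filter fun n => n.primeFactors ⊆ (rad (q.1 * q.2 * (q.1 + q.2))).primeFactors :
      Finset ℕ) := by
    rintro n ⟨⟨h4, a, b, c, h5, h6, h7, h8, h9, h10, h11⟩, h12⟩
    subst h8
    rw [mem_coe, mem_biUnion]
    refine ⟨(a, b), ?_, ?_⟩
    · rw [Set.Finite.mem_toFinset]
      refine ⟨⟨h5, h6, h7⟩, ?_, ?_⟩
      · show rad (a * b * (a + b)) ≤ X
        rw [hX]
        refine Nat.le_floor (h10.trans ?_)
        exact Real.rpow_le_rpow (Nat.cast_nonneg _) (by exact_mod_cast h12) (by linarith)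
      · show rad (a * b * (a + b)) ^ M ≤ a + b
        rw [Real.rpow_natCast] at h11
        exact_mod_cast h11
    · rw [mem_filter, mem_Icc]
      refine ⟨⟨h4, h12⟩, ?_⟩
      intro p hp
      have hpp := Nat.prime_of_mem_primeFactors hp
      have h13 := h9 p hpp (Nat.dvd_of_mem_primeFactors hp)
      have h14 : a * b * (a + b) ≠ 0 := by positivity
      rw [Nat.mem_primeFactors]
      refine ⟨hpp, Finset.dvd_prod_of_mem _ (Nat.mem_primeFactors.2 ⟨hpp, h13, h14⟩), ?_⟩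
      exact (Finset.prod_pos fun _ hp => (Nat.prime_of_mem_primeFactors hp).pos).ne'
  have h1 := Set.ncard_le_ncard hcov (Finset.finite_toSet _)
  rw [Set.ncard_coe_finset] at h1
  have h2 := h1.trans card_biUnion_le
  have h3 : ∀ q ∈ hfin.toFinset, (((Icc 1 N).filter fun n =>
      n.primeFactors ⊆ (rad (q.1 * q.2 * (q.1 + q.2))).primeFactors).card : ℝ) ≤
      D * (N : ℝ) ^ ε * ((N : ℝ) ^ (3 - δ)) ^ ε := by
    intro q hq
    obtain ⟨-, a4, -⟩ := hfin.mem_toFinset.1 hq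
    have a5 : 1 ≤ rad (q.1 * q.2 * (q.1 + q.2)) :=
      Finset.prod_pos fun _ hp => (Nat.prime_of_mem_primeFactors hp).pos
    refine (hcount N _ hN a5).trans ?_
    refine mul_le_mul_of_nonneg_left ?_ (by positivity)
    refine Real.rpow_le_rpow (Nat.cast_nonneg _) (le_trans ?_ hXN) hε0.le
    exact_mod_cast a4
  calc (({n | n ∈ Bad δ M ∧ n ≤ N} : Set ℕ).ncard : ℝ)
      ≤ ∑ q ∈ hfin.toFinset, (((Icc 1 N).filter fun n =>
        n.primeFactors ⊆ (rad (q.1 * q.2 * (q.1 + q.2))).primeFactors).card : ℝ) := by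
        exact_mod_cast h2
    _ ≤ ∑ q ∈ hfin.toFinset, D * (N : ℝ) ^ ε * ((N : ℝ) ^ (3 - δ)) ^ ε := sum_le_sum h3
    _ = (hfin.toFinset.card : ℝ) * (D * (N : ℝ) ^ ε * ((N : ℝ) ^ (3 - δ)) ^ ε) := by
        rw [sum_const, nsmul_eq_mul]
    _ ≤ (C * ((N : ℝ) ^ (3 - δ)) ^ (1 / 3 + ε)) *
        (D * (N : ℝ) ^ ε * ((N : ℝ) ^ (3 - δ)) ^ ε) := by
        refine mul_le_mul_of_nonneg_right ?_ (by positivity)
        rw [← Set.ncard_eq_toFinset_card _ hfin]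
        refine hcard.trans (mul_le_mul_of_nonneg_left ?_ hC.le)
        exact Real.rpow_le_rpow (Nat.cast_nonneg _) hXN (by positivity)
    _ = C * D * (N : ℝ) ^ ((3 - δ) * (1 / 3 + ε) + ε + (3 - δ) * ε) := by
        rw [← Real.rpow_mul hN0.le, ← Real.rpow_mul hN0.le, Real.rpow_add hN0, Real.rpow_add hN0]
        ring
    _ ≤ C * D * (N : ℝ) ^ (1 - δ / 6) := by
        refine mul_le_mul_of_nonneg_left ?_ (by positivity)
        refine Real.rpow_le_rpow_of_exponent_le hN1 ?_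
        rw [hε]
        nlinarith

end Pool.Agent.H17.DV
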